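import Mathlib

/-!
# Sets without a product of two distinct elements equal to a `d`-th power

For every `d ≥ 4`, `(n - F_{2,d}(n)) / n ^ (2 / d)` tends to infinity.
-/

set_option autoImplicit false

open Finset Filter

namespace Pool.Agent.Results.MP_5e019f_nt.PairsNotPowerOrder

/-- No product of `k` pairwise distinct elements of `A` is a perfect `d`-th power. -/
def AdmDistinct (k d : ℕ) (A : Finset ℕ) : Prop :=
  ∀ S : Finset ℕ, S ⊆ A → S.card = k → ¬ ∃ x : ℕ, 0 < x ∧ ∏ a ∈ S, a = x ^ d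

/-- No product of `k` elements of `A`, repetitions allowed, is a perfect `d`-th power. -/
def AdmRepeated (k d : ℕ) (A : Finset ℕ) : Prop :=
  ∀ g : Fin k → ℕ, (∀ i, g i ∈ A) → ¬ ∃ x : ℕ, 0 < x ∧ ∏ i, g i = x ^ d

/-- `F_{k,d}(n)`: the largest size of a subset of `{1, ..., n}` with `AdmDistinct k d`. -/
noncomputable def bigF (k d n : ℕ) : ℕ :=
  sSup {m : ℕ | ∃ A : Finset ℕ, A ⊆ Finset.Icc 1 n ∧ AdmDistinct k d A ∧ A.card = m}

/-- `f_{k,d}(n)`: the largest size of a subset of `{1, ..., n}` with `AdmRepeated k d`. -/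
noncomputable def smallF (k d n : ℕ) : ℕ :=
  sSup {m : ℕ | ∃ A : Finset ℕ, A ⊆ Finset.Icc 1 n ∧ AdmRepeated k d A ∧ A.card = m}

/-! ### Decoding -/

lemma fact_eq {u p w e m : ℕ} (hu : u ≠ 0) (hp : p.Prime) (hw : w ≠ 0) (q : ℕ) :
    (u * p ^ e * w ^ m).factorization q =
      u.factorization q + (if q = p then e else 0) + m * w.factorization q := by
  rw [Nat.factorization_mul (mul_ne_zero hu (pow_ne_zero _ hp.ne_zero)) (pow_ne_zero _ hw),
    Nat.factorization_mul hu (pow_ne_zero _ hp.ne_zero), Nat.factorization_pow,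
    Nat.factorization_pow, hp.factorization]
  simp only [Finsupp.add_apply, Finsupp.smul_apply, smul_eq_mul, Finsupp.single_apply]
  by_cases h : q = p
  · subst h; simp
  · simp [h, Ne.symm h]

lemma small_part {u p e m : ℕ} (hu : Squarefree u) (hp : p.Prime) (hpu : ¬ p ∣ u) (he : 2 ≤ e)
    (hem : e < m) (q : ℕ) : u.factorization q + (if q = p then e else 0) < m := by
  have h1 := hu.natFactorization_le_one q
  by_cases h : q = p
  · subst h
    rw [Nat.factorization_eq_zero_of_not_dvd hpu]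
    simpa using hem
  · simp [h]; omega

lemma decode {u p w u' p' w' e m : ℕ} (he : 2 ≤ e) (hem : e < m)
    (hu : Squarefree u) (hp : p.Prime) (hpu : ¬ p ∣ u) (hw : w ≠ 0)
    (hu' : Squarefree u') (hp' : p'.Prime) (hpu' : ¬ p' ∣ u') (hw' : w' ≠ 0)
    (h : u * p ^ e * w ^ m = u' * p' ^ e * w' ^ m) : u = u' ∧ p = p' ∧ w = w' := by
  have hf : ∀ q, u.factorization q + (if q = p then e else 0) + m * w.factorization q =
      u'.factorization q + (if q = p' then e else 0) + m * w'.factorization q := by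
    intro q
    rw [← fact_eq hu.ne_zero hp hw, ← fact_eq hu'.ne_zero hp' hw', h]
  have hmpos : 0 < m := by omega
  have hww : w = w' := by
    refine Nat.eq_of_factorization_eq hw hw' ?_
    intro q
    have h1 := small_part hu hp hpu he hem q
    have h2 := small_part hu' hp' hpu' he hem q
    have h3 := congrArg (· / m) (hf q)
    simp only [Nat.add_mul_div_left _ _ hmpos, Nat.div_eq_of_lt h1, Nat.div_eq_of_lt h2,
      zero_add] at h3
    exact h3
  subst hww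
  have hpp : p = p' := by
    have h1 := hf p
    have h2 := hu'.natFactorization_le_one p
    rw [Nat.factorization_eq_zero_of_not_dvd hpu] at h1
    by_contra hne
    simp [hne] at h1
    omega
  subst hpp
  refine ⟨?_, rfl, rfl⟩
  have hpos : 0 < p ^ e * w ^ m := Nat.mul_pos (pow_pos hp.pos _) (pow_pos (Nat.pos_of_ne_zero hw) _)
  rw [mul_assoc, mul_assoc] at h
  exact Nat.eq_of_mul_eq_mul_right hpos h

/-! ### Density of the squarefree numbers prime to `p` -/

/-- squarefree numbers at most `X` which are not divisible by `p` -/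
noncomputable def good (p X : ℕ) : Finset ℕ := by
  classical
  exact (Finset.Icc 1 X).filter (fun u => Squarefree u ∧ ¬ p ∣ u)

lemma mem_good {p X u : ℕ} : u ∈ good p X ↔ (1 ≤ u ∧ u ≤ X) ∧ Squarefree u ∧ ¬ p ∣ u := by
  classical
  simp [good]

lemma sum_inv_sq (m : ℕ) : ∑ d ∈ Finset.Icc 2 (m + 2), (1 : ℝ) / (d : ℝ) ^ 2 ≤
    3 / 4 - 1 / ((m : ℝ) + 2) := by
  induction m with
  | zero => norm_num
  | succ k ih =>
    rw [show k + 1 + 2 = (k + 2) + 1 by ring, Finset.sum_Icc_succ_top (by omega)]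
    have hk : (0 : ℝ) < (k : ℝ) + 2 := by positivity
    have : (1 : ℝ) / (((k + 2 + 1 : ℕ) : ℝ)) ^ 2 ≤ 1 / ((k : ℝ) + 2) - 1 / ((k : ℝ) + 1 + 2) := by
      push_cast
      rw [div_sub_div _ _ (by positivity) (by positivity), div_le_div_iff₀ (by positivity)
        (by positivity)]
      nlinarith
    push_cast at this ⊢
    linarith

lemma sum_inv_sq' (X : ℕ) : ∑ d ∈ Finset.Icc 2 X, (1 : ℝ) / (d : ℝ) ^ 2 ≤ 3 / 4 := by
  rcases Nat.lt_or_ge X 2 with h | h
  · rw [Finset.Icc_eq_empty (by omega)]; norm_num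
  · obtain ⟨m, rfl⟩ : ∃ m, X = m + 2 := ⟨X - 2, by omega⟩
    refine (sum_inv_sq m).trans ?_
    have : (0 : ℝ) ≤ 1 / ((m : ℝ) + 2) := by positivity
    linarith

lemma card_mult (X m : ℕ) : (((Finset.Icc 1 X).filter (fun u => m ∣ u)).card : ℝ) ≤ X / m := by
  have h : ((Finset.Icc 1 X).filter (fun u => m ∣ u)).card = X / m := by
    have := Nat.Ioc_filter_dvd_card_eq_div X m
    rw [← this]
    rfl
  rw [h]
  exact Nat.cast_div_le

lemma good_card {p : ℕ} (hp8 : 8 ≤ p) (X : ℕ) : (X : ℝ) / 8 ≤ (good p X).card := by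
  classical
  have hcover : Finset.Icc 1 X ⊆ good p X ∪ ((Finset.Icc 1 X).filter (fun u => p ∣ u) ∪
      (Finset.Icc 2 X).biUnion (fun d => (Finset.Icc 1 X).filter (fun u => d ^ 2 ∣ u))) := by
    intro u hu
    rw [Finset.mem_Icc] at hu
    by_cases h1 : p ∣ u
    · simp [h1, hu]
    · by_cases h2 : Squarefree u
      · exact Finset.mem_union_left _ (mem_good.2 ⟨hu, h2, h1⟩)
      · rw [Nat.squarefree_iff_prime_squarefree] at h2
        push Not at h2
        obtain ⟨q, hq, hqu⟩ := h2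
        refine Finset.mem_union_right _ (Finset.mem_union_right _ ?_)
        rw [Finset.mem_biUnion]
        have hqle : q * q ≤ u := Nat.le_of_dvd (by omega) hqu
        have h2q := hq.two_le
        refine ⟨q, Finset.mem_Icc.2 ⟨h2q, by nlinarith⟩, ?_⟩
        rw [Finset.mem_filter, Finset.mem_Icc]
        exact ⟨hu, by rw [pow_two]; exact hqu⟩
  have hcard := Finset.card_le_card hcover
  have h1 := (hcard.trans (Finset.card_union_le _ _)).trans
    (Nat.add_le_add_left ((Finset.card_union_le _ _).trans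
      (Nat.add_le_add_left Finset.card_biUnion_le _)) _)
  rw [Nat.card_Icc] at h1
  have h2 : (X : ℝ) ≤ (good p X).card + ((((Finset.Icc 1 X).filter (fun u => p ∣ u)).card : ℝ) +
      ∑ d ∈ Finset.Icc 2 X, (((Finset.Icc 1 X).filter (fun u => d ^ 2 ∣ u)).card : ℝ)) := by
    have h3 : X ≤ (good p X).card + (((Finset.Icc 1 X).filter (fun u => p ∣ u)).card +
      ∑ d ∈ Finset.Icc 2 X, ((Finset.Icc 1 X).filter (fun u => d ^ 2 ∣ u)).card) := by
      simpa using h1
    exact_mod_cast h3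
  have h4 : (((Finset.Icc 1 X).filter (fun u => p ∣ u)).card : ℝ) ≤ X / 8 := by
    refine (card_mult X p).trans ?_
    have : (8 : ℝ) ≤ p := by exact_mod_cast hp8
    exact div_le_div_of_nonneg_left (Nat.cast_nonneg X) (by norm_num) this
  have h5 : ∑ d ∈ Finset.Icc 2 X, (((Finset.Icc 1 X).filter (fun u => d ^ 2 ∣ u)).card : ℝ) ≤
      X * (3 / 4) := by
    calc ∑ d ∈ Finset.Icc 2 X, (((Finset.Icc 1 X).filter (fun u => d ^ 2 ∣ u)).card : ℝ)
        ≤ ∑ d ∈ Finset.Icc 2 X, (X : ℝ) * (1 / (d : ℝ) ^ 2) := by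
          refine Finset.sum_le_sum fun d _ => ?_
          refine (card_mult X (d ^ 2)).trans (le_of_eq ?_)
          push_cast
          ring
      _ = X * ∑ d ∈ Finset.Icc 2 X, (1 : ℝ) / (d : ℝ) ^ 2 := by rw [Finset.mul_sum]
      _ ≤ X * (3 / 4) := mul_le_mul_of_nonneg_left (sum_inv_sq' X) (Nat.cast_nonneg X)
  linarith

/-! ### Counting -/

lemma half_card {ι : Type} [DecidableEq ι] (T : Finset ι) (D : Finset ℕ) (a b : ι → ℕ)
    (ha : Set.InjOn a T) (hb : Set.InjOn b T) (h : ∀ t ∈ T, a t ∈ D ∨ b t ∈ D) :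
    T.card ≤ 2 * D.card := by
  have hcov : T ⊆ T.filter (fun t => a t ∈ D) ∪ T.filter (fun t => b t ∈ D) := by
    intro t ht
    rcases h t ht with h1 | h1
    · exact Finset.mem_union_left _ (Finset.mem_filter.2 ⟨ht, h1⟩)
    · exact Finset.mem_union_right _ (Finset.mem_filter.2 ⟨ht, h1⟩)
  have h1 : (T.filter (fun t => a t ∈ D)).card ≤ D.card := by
    refine Finset.card_le_card_of_injOn a ?_ ?_
    · intro t ht
      exact (Finset.mem_filter.1 ht).2
    · exact ha.mono (fun t ht => (Finset.mem_filter.1 ht).1)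
  have h2 : (T.filter (fun t => b t ∈ D)).card ≤ D.card := by
    refine Finset.card_le_card_of_injOn b ?_ ?_
    · intro t ht
      exact (Finset.mem_filter.1 ht).2
    · exact hb.mono (fun t ht => (Finset.mem_filter.1 ht).1)
  have h3 := (Finset.card_le_card hcov).trans (Finset.card_union_le _ _)
  omega

lemma exists_max {d n : ℕ} : ∃ A : Finset ℕ, A ⊆ Finset.Icc 1 n ∧ AdmDistinct 2 d A ∧
    A.card = bigF 2 d n := by
  have hne : {m : ℕ | ∃ A : Finset ℕ, A ⊆ Finset.Icc 1 n ∧ AdmDistinct 2 d A ∧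
      A.card = m}.Nonempty := by
    refine ⟨0, ∅, Finset.empty_subset _, ?_, rfl⟩
    intro S hS hc
    have : S = ∅ := Finset.subset_empty.1 hS
    subst this
    simp at hc
  have hbdd : BddAbove {m : ℕ | ∃ A : Finset ℕ, A ⊆ Finset.Icc 1 n ∧ AdmDistinct 2 d A ∧
      A.card = m} := by
    refine ⟨n, ?_⟩
    rintro m ⟨A, hA, -, rfl⟩
    have := Finset.card_le_card hA
    simpa using this
  exact Nat.sSup_mem hne hbdd

lemma ne_of_ne {d p u w : ℕ} (hd : 4 ≤ d) (hp : p.Prime) (hu : u ≠ 0) (hw : w ≠ 0)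
    (hpw : ¬ p ∣ w) (huw : u ≠ w) : u * p ^ 2 * w ^ (d - 1) ≠ w * p ^ (d - 2) * u ^ (d - 1) := by
  intro h
  obtain ⟨e, rfl⟩ : ∃ e, d = e + 4 := ⟨d - 4, by omega⟩
  have e1 : e + 4 - 1 = e + 3 := by omega
  have e2 : e + 4 - 2 = e + 2 := by omega
  rw [e1, e2] at h
  have h2 : w ^ (e + 2) = p ^ e * u ^ (e + 2) := by
    have hpos : 0 < u * w * p ^ 2 :=
      Nat.mul_pos (Nat.mul_pos (Nat.pos_of_ne_zero hu) (Nat.pos_of_ne_zero hw)) (pow_pos hp.pos _)
    refine Nat.eq_of_mul_eq_mul_left hpos ?_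
    calc u * w * p ^ 2 * w ^ (e + 2) = u * p ^ 2 * w ^ (e + 3) := by ring
      _ = w * p ^ (e + 2) * u ^ (e + 3) := h
      _ = u * w * p ^ 2 * (p ^ e * u ^ (e + 2)) := by ring
  rcases Nat.eq_zero_or_pos e with he | he
  · subst he
    simp only [zero_add, pow_zero, one_mul] at h2
    exact huw (Nat.pow_left_injective (n := 2) (by norm_num) h2).symm
  · apply hpw
    have : p ∣ w ^ (e + 2) := by
      rw [h2]
      exact Dvd.dvd.mul_right (dvd_pow_self p (by omega)) _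
    exact hp.dvd_of_dvd_pow this

lemma count {d n : ℕ} (hd : 4 ≤ d) (P : Finset ℕ) (hP : ∀ p ∈ P, p.Prime ∧ 8 ≤ p)
    (X Y : ℕ → ℕ)
    (h1 : ∀ p ∈ P, ∀ u w : ℕ, u ≤ X p → w ≤ Y p → u * p ^ 2 * w ^ (d - 1) ≤ n)
    (h2 : ∀ p ∈ P, ∀ u w : ℕ, u ≤ X p → w ≤ Y p → w * p ^ (d - 2) * u ^ (d - 1) ≤ n) :
    ∑ p ∈ P, ((X p : ℝ) * Y p / 64 - X p) ≤ 2 * ((n : ℝ) - bigF 2 d n) := by
  classical
  obtain ⟨A, hA, hadm, hcard⟩ := exists_max (d := d) (n := n)
  set D := Finset.Icc 1 n \ A with hD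
  have hDcard : (D.card : ℝ) = (n : ℝ) - bigF 2 d n := by
    have h3 := Finset.card_sdiff_add_card_eq_card hA
    rw [hcard, Nat.card_Icc, ← hD] at h3
    have h4 : (D.card : ℝ) + bigF 2 d n = ((n + 1 - 1 : ℕ) : ℝ) := by exact_mod_cast h3
    rw [Nat.add_sub_cancel] at h4
    linarith
  let T : Finset ((_ : ℕ) × (ℕ × ℕ)) :=
    P.sigma (fun p => (good p (X p) ×ˢ good p (Y p)).filter (fun x => x.1 ≠ x.2))
  let a : (_ : ℕ) × (ℕ × ℕ) → ℕ := fun t => t.2.1 * t.1 ^ 2 * t.2.2 ^ (d - 1)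
  let b : (_ : ℕ) × (ℕ × ℕ) → ℕ := fun t => t.2.2 * t.1 ^ (d - 2) * t.2.1 ^ (d - 1)
  have hTmem : ∀ t ∈ T, t.1 ∈ P ∧ t.2.1 ∈ good t.1 (X t.1) ∧ t.2.2 ∈ good t.1 (Y t.1) ∧
      t.2.1 ≠ t.2.2 := by
    intro t ht
    simp only [T, Finset.mem_sigma, Finset.mem_filter, Finset.mem_product] at ht
    exact ⟨ht.1, ht.2.1.1, ht.2.1.2, ht.2.2⟩
  have ha : Set.InjOn a T := by
    rintro ⟨p, u, w⟩ ht ⟨p', u', w'⟩ ht' h
    obtain ⟨hp, hu, hw, huw⟩ := hTmem _ ht
    obtain ⟨hp', hu', hw', huw'⟩ := hTmem _ ht'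
    simp only [mem_good] at hp hu hw hp' hu' hw'
    obtain ⟨r1, r2, r3⟩ := decode (e := 2) (m := d - 1) le_rfl (by omega) hu.2.1 (hP p hp).1
      hu.2.2 (Nat.one_le_iff_ne_zero.1 hw.1.1) hu'.2.1 (hP p' hp').1 hu'.2.2
      (Nat.one_le_iff_ne_zero.1 hw'.1.1) h
    subst r1 r2 r3
    rfl
  have hb : Set.InjOn b T := by
    rintro ⟨p, u, w⟩ ht ⟨p', u', w'⟩ ht' h
    obtain ⟨hp, hu, hw, huw⟩ := hTmem _ ht
    obtain ⟨hp', hu', hw', huw'⟩ := hTmem _ ht'
    simp only [mem_good] at hp hu hw hp' hu' hw'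
    obtain ⟨r1, r2, r3⟩ := decode (e := d - 2) (m := d - 1) (by omega) (by omega) hw.2.1 (hP p hp).1
      hw.2.2 (Nat.one_le_iff_ne_zero.1 hu.1.1) hw'.2.1 (hP p' hp').1 hw'.2.2
      (Nat.one_le_iff_ne_zero.1 hu'.1.1) h
    subst r1 r2 r3
    rfl
  have hab : ∀ t ∈ T, a t ∈ D ∨ b t ∈ D := by
    rintro ⟨p, u, w⟩ ht
    obtain ⟨hp, hu, hw, huw⟩ := hTmem _ ht
    simp only [mem_good] at hp hu hw huw
    have hpp := (hP p hp).1
    have ha1 : a ⟨p, u, w⟩ ∈ Finset.Icc 1 n := by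
      refine Finset.mem_Icc.2 ⟨?_, h1 p hp u w hu.1.2 hw.1.2⟩
      exact Nat.mul_pos (Nat.mul_pos hu.1.1 (pow_pos hpp.pos _)) (pow_pos hw.1.1 _)
    have hb1 : b ⟨p, u, w⟩ ∈ Finset.Icc 1 n := by
      refine Finset.mem_Icc.2 ⟨?_, h2 p hp u w hu.1.2 hw.1.2⟩
      exact Nat.mul_pos (Nat.mul_pos hw.1.1 (pow_pos hpp.pos _)) (pow_pos hu.1.1 _)
    by_contra hcon
    push Not at hcon
    have haA : a ⟨p, u, w⟩ ∈ A := by
      by_contra hne
      exact hcon.1 (Finset.mem_sdiff.2 ⟨ha1, hne⟩)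
    have hbA : b ⟨p, u, w⟩ ∈ A := by
      by_contra hne
      exact hcon.2 (Finset.mem_sdiff.2 ⟨hb1, hne⟩)
    have hne : a ⟨p, u, w⟩ ≠ b ⟨p, u, w⟩ :=
      ne_of_ne hd hpp (Nat.one_le_iff_ne_zero.1 hu.1.1)
      (Nat.one_le_iff_ne_zero.1 hw.1.1) hw.2.2 huw
    refine hadm {a ⟨p, u, w⟩, b ⟨p, u, w⟩} ?_ (Finset.card_pair hne) ⟨u * p * w, ?_, ?_⟩
    · intro x hx
      rw [Finset.mem_insert, Finset.mem_singleton] at hx
      rcases hx with rfl | rfl
      · exact haA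
      · exact hbA
    · exact Nat.mul_pos (Nat.mul_pos hu.1.1 hpp.pos) hw.1.1
    · rw [Finset.prod_pair hne]
      change u * p ^ 2 * w ^ (d - 1) * (w * p ^ (d - 2) * u ^ (d - 1)) = (u * p * w) ^ d
      obtain ⟨e, rfl⟩ : ∃ e, d = e + 2 := ⟨d - 2, by omega⟩
      have e1 : e + 2 - 1 = e + 1 := by omega
      have e2 : e + 2 - 2 = e := by omega
      rw [e1, e2]
      ring
  have hT : (T.card : ℝ) ≤ 2 * D.card := by
    exact_mod_cast half_card T D a b ha hb hab
  rw [← hDcard]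
  refine le_trans ?_ hT
  rw [Finset.card_sigma]
  push_cast
  refine Finset.sum_le_sum fun p hp => ?_
  have hp8 := (hP p hp).2
  have hsplit := Finset.card_filter_add_card_filter_not (s := good p (X p) ×ˢ good p (Y p))
    (fun x => x.1 = x.2)
  have hdiag : ((good p (X p) ×ˢ good p (Y p)).filter (fun x => x.1 = x.2)).card ≤ X p := by
    have hle : ((good p (X p) ×ˢ good p (Y p)).filter (fun x => x.1 = x.2)).card ≤
        (Finset.Icc 1 (X p)).card := by
      refine Finset.card_le_card_of_injOn (fun x => x.1) ?_ ?_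
      · rintro ⟨u, w⟩ hx
        simp only [Finset.coe_filter, Finset.mem_product, Set.mem_ofPred_eq, mem_good] at hx
        exact Finset.mem_coe.2 (Finset.mem_Icc.2 hx.1.1.1)
      · rintro ⟨u, w⟩ hx ⟨u', w'⟩ hx' h
        simp only [Finset.coe_filter, Set.mem_ofPred_eq] at hx hx' h
        have e1 := hx.2
        have e2 := hx'.2
        subst h
        rw [← e1, ← e2]
    simpa using hle
  rw [Finset.card_product] at hsplit
  have hX := good_card hp8 (X p)
  have hY := good_card hp8 (Y p)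
  have hprod : (X p : ℝ) / 8 * (Y p / 8) ≤ (good p (X p)).card * (good p (Y p)).card :=
    mul_le_mul hX hY (by positivity) (by positivity)
  have hsplit' : ((((good p (X p) ×ˢ good p (Y p)).filter (fun x => x.1 = x.2)).card : ℝ)) +
      ((good p (X p) ×ˢ good p (Y p)).filter (fun x => ¬ x.1 = x.2)).card =
      (good p (X p)).card * (good p (Y p)).card := by exact_mod_cast hsplit
  have hdiag' : ((((good p (X p) ×ˢ good p (Y p)).filter (fun x => x.1 = x.2)).card : ℝ)) ≤ X p := by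
    exact_mod_cast hdiag
  have hgoal : (X p : ℝ) * Y p / 64 - X p ≤
      ((good p (X p) ×ˢ good p (Y p)).filter (fun x => ¬ x.1 = x.2)).card := by
    nlinarith
  exact hgoal

/-! ### Asymptotics -/

lemma exists_primes (C : ℝ) : ∃ P : Finset ℕ, (∀ p ∈ P, p.Prime ∧ 8 ≤ p) ∧
    C < ∑ p ∈ P, (1 : ℝ) / p := by
  classical
  let g : ℕ → ℝ := Set.indicator {p : ℕ | p.Prime} (fun n : ℕ => (1 : ℝ) / n)
  have hg0 : ∀ n, 0 ≤ g n := fun n => Set.indicator_nonneg (fun _ _ => by positivity) n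
  have hns : ¬ Summable g := not_summable_one_div_on_primes
  have ht := (not_summable_iff_tendsto_nat_atTop_of_nonneg hg0).1 hns
  obtain ⟨M, hM⟩ := (ht.eventually (eventually_gt_atTop (C + ∑ i ∈ Finset.range 8, g i))).exists
  refine ⟨(Finset.range M).filter (fun p => p.Prime ∧ 8 ≤ p), ?_, ?_⟩
  · intro p hp
    exact (Finset.mem_filter.1 hp).2
  · have h1 : ∑ i ∈ Finset.range M, g i ≤ ∑ i ∈ Finset.range 8, g i +
        ∑ p ∈ (Finset.range M).filter (fun p => p.Prime ∧ 8 ≤ p), (1 : ℝ) / p := by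
      have h2 : ∑ p ∈ (Finset.range M).filter (fun p => p.Prime ∧ 8 ≤ p), (1 : ℝ) / p =
          ∑ p ∈ (Finset.range M).filter (fun p => p.Prime ∧ 8 ≤ p), g p := by
        refine Finset.sum_congr rfl fun p hp => ?_
        have := (Finset.mem_filter.1 hp).2.1
        simp [g, this]
      rw [h2, Finset.sum_filter]
      have h3 : ∑ i ∈ Finset.range 8, g i + ∑ p ∈ Finset.range M, (if p.Prime ∧ 8 ≤ p then g p else 0)
          ≥ ∑ i ∈ (Finset.range M).filter (fun i => i < 8), g i +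
            ∑ p ∈ Finset.range M, (if p.Prime ∧ 8 ≤ p then g p else 0) := by
        apply add_le_add_left
        refine Finset.sum_le_sum_of_subset_of_nonneg ?_ (fun i _ _ => hg0 i)
        intro i hi
        exact Finset.mem_range.2 (Finset.mem_filter.1 hi).2
      refine le_trans ?_ h3
      rw [Finset.sum_filter, ← Finset.sum_add_distrib]
      refine Finset.sum_le_sum fun i _ => ?_
      by_cases h8 : i < 8
      · have : ¬ 8 ≤ i := by omega
        simp [h8, this]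
      · by_cases hp : i.Prime
        · have : 8 ≤ i := by omega
          simp [hp, this, h8]
        · simp [g, hp, h8]
    linarith

/-- the exponents used to balance the two bounds -/
lemma balance {d : ℕ} (hd : 4 ≤ d) {p : ℕ} (hp : p.Prime) : ∃ α β : ℝ, 0 < α ∧ 0 < β ∧
    α * β = 1 / p ∧ α * p ^ 2 * β ^ (d - 1) = 1 ∧ β * p ^ (d - 2) * α ^ (d - 1) = 1 := by
  have hp0 : (0 : ℝ) < p := by exact_mod_cast hp.pos
  obtain ⟨e, rfl⟩ : ∃ e, d = e + 4 := ⟨d - 4, by omega⟩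
  set r : ℝ := (p : ℝ) ^ (1 / ((e + 2 : ℕ) : ℝ)) with hr
  have hr0 : 0 < r := Real.rpow_pos_of_pos hp0 _
  have hrp : r ^ (e + 2) = p := by
    rw [hr, ← Real.rpow_natCast, ← Real.rpow_mul hp0.le, one_div,
      inv_mul_cancel₀ (by positivity), Real.rpow_one]
  refine ⟨r / p, 1 / r, by positivity, by positivity, ?_, ?_, ?_⟩
  · field_simp
  · have e1 : e + 4 - 1 = e + 3 := by omega
    rw [e1]
    have : r / p * (p : ℝ) ^ 2 * (1 / r) ^ (e + 3) = p / r ^ (e + 2) := by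
      rw [one_div_pow, show e + 3 = (e + 2) + 1 by ring]
      field_simp
      ring
    rw [this, hrp]
    field_simp
  · have e1 : e + 4 - 1 = e + 3 := by omega
    have e2 : e + 4 - 2 = e + 2 := by omega
    rw [e1, e2]
    have : 1 / r * (p : ℝ) ^ (e + 2) * (r / p) ^ (e + 3) = r ^ (e + 2) / p := by
      rw [div_pow, show e + 3 = (e + 2) + 1 by ring]
      field_simp
      ring
    rw [this, hrp]
    field_simp

/-- **Main estimate.** -/
theorem ratio_tendsto (d : ℕ) (hd : 4 ≤ d) :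
    Tendsto (fun n : ℕ => ((n : ℝ) - bigF 2 d n) / (n : ℝ) ^ ((2 : ℝ) / d)) atTop atTop := by
  classical
  rw [tendsto_atTop]
  intro C
  obtain ⟨P, hP, hsum⟩ := exists_primes (128 * C)
  choose! α β hα hβ hαβ hb1 hb2 using fun (p : ℕ) (hp : p.Prime) => balance hd hp
  have hdpos : (0 : ℝ) < d := by exact_mod_cast (by omega : 0 < d)
  let N : ℕ → ℝ := fun n => (n : ℝ) ^ ((1 : ℝ) / d)
  have hN : Tendsto N atTop atTop :=
    (tendsto_rpow_atTop (by positivity)).comp tendsto_natCast_atTop_atTop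
  have hNd : ∀ n : ℕ, N n ^ d = n := by
    intro n
    simp only [N]
    rw [← Real.rpow_natCast, ← Real.rpow_mul (Nat.cast_nonneg n), one_div,
      inv_mul_cancel₀ hdpos.ne', Real.rpow_one]
  have hN2 : ∀ n : ℕ, (n : ℝ) ^ ((2 : ℝ) / d) = N n ^ 2 := by
    intro n
    simp only [N]
    rw [← Real.rpow_natCast, ← Real.rpow_mul (Nat.cast_nonneg n)]
    congr 1
    push_cast
    ring
  have hterm : ∀ p ∈ P, Tendsto (fun x : ℝ => ((⌊α p * x⌋₊ : ℝ) * ⌊β p * x⌋₊ / 64 -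
      ⌊α p * x⌋₊) / x ^ 2) atTop (nhds (1 / (64 * (p : ℝ)))) := by
    intro p hp
    have hpp := (hP p hp).1
    have hp0 : (p : ℝ) ≠ 0 := by exact_mod_cast hpp.ne_zero
    have h1 : Tendsto (fun x : ℝ => (⌊α p * x⌋₊ : ℝ) / x) atTop (nhds (α p)) :=
      tendsto_nat_floor_mul_div_atTop (hα p hpp).le
    have h2 : Tendsto (fun x : ℝ => (⌊β p * x⌋₊ : ℝ) / x) atTop (nhds (β p)) :=
      tendsto_nat_floor_mul_div_atTop (hβ p hpp).le
    have h3 : Tendsto (fun x : ℝ => x⁻¹) atTop (nhds 0) := tendsto_inv_atTop_zero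
    have h4 := ((h1.mul h2).div_const 64).sub (h1.mul h3)
    have h5 : α p * β p / 64 - α p * 0 = 1 / (64 * (p : ℝ)) := by
      rw [hαβ p hpp]; field_simp; simp
    rw [h5] at h4
    refine h4.congr' ?_
    filter_upwards [eventually_gt_atTop (0 : ℝ)] with x hx
    field_simp
  have hsumt : Tendsto (fun x : ℝ => ∑ p ∈ P, ((⌊α p * x⌋₊ : ℝ) * ⌊β p * x⌋₊ / 64 -
      ⌊α p * x⌋₊) / x ^ 2) atTop (nhds (∑ p ∈ P, 1 / (64 * (p : ℝ)))) :=
    tendsto_finsetSum _ hterm
  have hlim : 2 * C < ∑ p ∈ P, 1 / (64 * (p : ℝ)) := by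
    have : ∑ p ∈ P, 1 / (64 * (p : ℝ)) = (1 / 64) * ∑ p ∈ P, (1 : ℝ) / p := by
      rw [Finset.mul_sum]
      refine Finset.sum_congr rfl fun p _ => ?_
      rw [one_div_mul_one_div]
    rw [this]
    linarith
  have hev := (hsumt.comp hN).eventually (eventually_gt_nhds hlim)
  filter_upwards [hev, hN.eventually (eventually_gt_atTop 0)] with n hn hNpos
  simp only [Function.comp] at hn
  have hcount := count (d := d) (n := n) hd P hP (fun p => ⌊α p * N n⌋₊) (fun p => ⌊β p * N n⌋₊)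
    ?_ ?_
  · rw [hN2 n, le_div_iff₀ (by positivity)]
    have h6 : ∑ p ∈ P, ((⌊α p * N n⌋₊ : ℝ) * ⌊β p * N n⌋₊ / 64 - ⌊α p * N n⌋₊) / N n ^ 2 =
        (∑ p ∈ P, ((⌊α p * N n⌋₊ : ℝ) * ⌊β p * N n⌋₊ / 64 - ⌊α p * N n⌋₊)) / N n ^ 2 := by
      rw [Finset.sum_div]
    rw [h6, lt_div_iff₀ (by positivity)] at hn
    linarith
  · intro p hp u w hu hw
    have hpp := (hP p hp).1
    have hu' : (u : ℝ) ≤ α p * N n :=
      (Nat.cast_le.2 hu).trans (Nat.floor_le (mul_nonneg (hα p hpp).le hNpos.le))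
    have hw' : (w : ℝ) ≤ β p * N n :=
      (Nat.cast_le.2 hw).trans (Nat.floor_le (mul_nonneg (hβ p hpp).le hNpos.le))
    have hα0 := hα p hpp
    have hβ0 := hβ p hpp
    have hfin : (u : ℝ) * p ^ 2 * w ^ (d - 1) ≤ n := by
      calc (u : ℝ) * p ^ 2 * w ^ (d - 1) ≤ (α p * N n) * p ^ 2 * (β p * N n) ^ (d - 1) := by
            gcongr
        _ = (α p * p ^ 2 * β p ^ (d - 1)) * (N n * N n ^ (d - 1)) := by
            rw [mul_pow]; ring
        _ = n := by
            rw [hb1 p hpp, ← pow_succ', show d - 1 + 1 = d by omega, hNd, one_mul]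
    exact_mod_cast hfin
  · intro p hp u w hu hw
    have hpp := (hP p hp).1
    have hu' : (u : ℝ) ≤ α p * N n :=
      (Nat.cast_le.2 hu).trans (Nat.floor_le (mul_nonneg (hα p hpp).le hNpos.le))
    have hw' : (w : ℝ) ≤ β p * N n :=
      (Nat.cast_le.2 hw).trans (Nat.floor_le (mul_nonneg (hβ p hpp).le hNpos.le))
    have hα0 := hα p hpp
    have hβ0 := hβ p hpp
    have hfin : (w : ℝ) * p ^ (d - 2) * u ^ (d - 1) ≤ n := by
      calc (w : ℝ) * p ^ (d - 2) * u ^ (d - 1) ≤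
            (β p * N n) * p ^ (d - 2) * (α p * N n) ^ (d - 1) := by
            gcongr
        _ = (β p * p ^ (d - 2) * α p ^ (d - 1)) * (N n * N n ^ (d - 1)) := by
            rw [mul_pow]; ring
        _ = n := by
            rw [hb2 p hpp, ← pow_succ', show d - 1 + 1 = d by omega, hNd, one_mul]
    exact_mod_cast hfin

/-- **The order `n ^ (k / d)` is wrong for `k = 2` and every `d ≥ 4`.**
For every `d ≥ 4` the quotient `(n - F_{2,d}(n)) / n ^ (2 / d)` tends to infinity; in particular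
the two-sided bound asked for fails. -/
theorem result :
    (∀ d : ℕ, 4 ≤ d →
      Tendsto (fun n : ℕ => ((n : ℝ) - bigF 2 d n) / (n : ℝ) ^ ((2 : ℝ) / d)) atTop atTop) ∧
    ¬ (∀ k d : ℕ, 1 < k → k < d → 4 ≤ d → ∃ c C : ℝ, 0 < c ∧ c ≤ C ∧ ∀ᶠ n : ℕ in atTop,
      c * (n : ℝ) ^ ((k : ℝ) / d) ≤ (n : ℝ) - bigF k d n ∧
      (n : ℝ) - bigF k d n ≤ (n : ℝ) - smallF k d n ∧
      (n : ℝ) - smallF k d n ≤ C * (n : ℝ) ^ ((k : ℝ) / d)) := by
  refine ⟨ratio_tendsto, ?_⟩
  intro h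
  obtain ⟨c, C, -, -, hev⟩ := h 2 4 (by norm_num) (by norm_num) le_rfl
  have h1 := (ratio_tendsto 4 le_rfl).eventually (eventually_gt_atTop C)
  obtain ⟨n, ⟨hn1, hn2⟩, hn3⟩ := ((hev.and h1).and (eventually_gt_atTop 0)).exists
  have hpos : (0 : ℝ) < (n : ℝ) ^ ((2 : ℝ) / (4 : ℕ)) :=
    Real.rpow_pos_of_pos (by exact_mod_cast hn3) _
  rw [lt_div_iff₀ hpos] at hn2
  have h3 := hn1.2.1.trans hn1.2.2
  push_cast at h3 hn2
  linarith

end Pool.Agent.Results.MP_5e019f_nt.PairsNotPowerOrder
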